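import Pool.Agent.R410.NG.CBn
import Pool.Agent.R410.NG.Nat3

/-!
# The Tauberian generalized Nagao conjecture for the hyperelliptic curves
`Y² = a(X) w² + b(X) w + c(X)`

Let `M` be a finitely generated field of characteristic zero and of transcendence degree `d` over `ℚ`,
which contains the number field `k`, and let `K = M(w)` be the field of rational functions over `M`: the
function field of a variety over `k` of dimension `m = d + 1`.  Let `a, b, c ∈ M[X]`, where `c` is monic of
degree `2g + 1`, the degrees of `a` and `b` are less than `2g + 1`, and `b² - 4ac ≠ 0`.  Let `X` be the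
hyperelliptic curve `Y² = a(X) w² + b(X) w + c(X)` of genus `g` over `K`, and assume that it is smooth.
It has one point at infinity, and it is rational: the group `J(K)` of the points of its Jacobian
is the class group of the ring `K[X, Y] / (Y² - a w² - b w - c)`.

The algebraic side: the rank of `J(K)` is `σ - ε`, where `σ` is the number of the monic irreducible
polynomials `δ ∈ M[X]` such that `a w² + b w + c` is modulo `δ` the square of a nonzero polynomial
`r w + s` (the fibres of the conic bundle `Y² = a w² + b w + c` over the `X`-line which split), and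
`ε = 1` if `a` is a nonzero square, and `ε = 0` otherwise (such a `δ` divides `b² - 4ac`).

The analytic side: let `R` be any model of `K` over the integers of `k`, that is any integral domain which
is finitely generated as a ring, contains the integers of `k` and has the field of fractions `K`, and over
which the curve has an equation `Y² = G(X)`, and let `N` be any nonzero element of `R` (for example a
multiple of the discriminant, so that the fibres over the points with `N ≠ 0` are smooth).  Let `𝔄_v` be
the fibre averages over the points of `Spec R` above `v` with `N ≠ 0`.  Then the averages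
`T⁻¹ ∑_{q_v ≤ T} 𝔄_v log q_v` converge to `-rank J(K)` for `T → ∞`.

The theorem applies to `M k'` for all the finite extensions `k'` of `k`, and the rank is at most the number
of the irreducible factors of `b² - 4ac`, so it remains bounded.  Thus the `K/k`-trace of `J`
is zero (it is also zero since the surface is a conic bundle over a line), and `𝔄* = 𝔄`.
-/

set_option autoImplicit false

namespace Pool.Agent.Results.MP_1a0ddd_nt.ConicBundleCurves

open Polynomial NumberField IsDedekindDomain Filter Topology

/-- The polynomial `c(X) + w b(X) + w² a(X)` over `K`. -/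
noncomputable def curve {M K : Type} [Field M] [Field K] [Algebra M K] (a b c : M[X]) (w : K) : K[X] :=
  c.map (algebraMap M K) + C w * b.map (algebraMap M K) + C (w ^ 2) * a.map (algebraMap M K)

/-- Modulo `δ`, the polynomial `a w² + b w + c` is the square of a nonzero polynomial `r w + s`. -/
def IsSplit {M : Type} [Field M] (a b c δ : M[X]) : Prop :=
  ∃ r s : M[X], δ ∣ a - r ^ 2 ∧ δ ∣ b - 2 * r * s ∧ δ ∣ c - s ^ 2 ∧ ¬ (δ ∣ r ∧ δ ∣ s)

/-- The number of the monic irreducible polynomials over which the conic splits. -/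
noncomputable def sigma {M : Type} [Field M] (a b c : M[X]) : ℕ :=
  Nat.card {δ : M[X] // δ.Monic ∧ Irreducible δ ∧ IsSplit a b c δ}

open Classical in
/-- The rank: `σ - 1` if `a` is a nonzero square, and `σ` otherwise. -/
noncomputable def rho {M : Type} [Field M] (a b c : M[X]) : ℕ :=
  sigma a b c - if a ≠ 0 ∧ IsSquare a then 1 else 0

/-- The rank of the class group of the ring `K[X, Y] / (Y² - F(X))`. -/
def ClassGroupHasRank {K : Type} [Field K] (F : K[X]) (n : ℕ) : Prop :=
  ∃ _ : IsDomain (AdjoinRoot (X ^ 2 - C F : K[X][X])),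
    Module.rank ℤ (Additive (ClassGroup (AdjoinRoot (X ^ 2 - C F : K[X][X])))) = n

/-- The trace of the Frobenius on `H¹` of the curve `Y² = g(X)` over the finite field `F`, for a monic
polynomial `g` of odd degree without multiple roots: the number of the elements of `F` minus the number of
the affine points. -/
noncomputable def traceOne (F : Type) [Field F] (g : F[X]) : ℝ :=
  (Nat.card F : ℝ) - Nat.card {P : F × F // P.2 ^ 2 = g.eval P.1}

/-- The average `𝔄_v = q_v^{-m} ∑ a(fibre)` of the traces of the fibres of `Y² = G(X)` over the points of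
`Spec R` above `v`, rational over the residue field of `v`, at which `N` does not vanish. -/
noncomputable def average {k R : Type} [Field k] [NumberField k] [CommRing R] [Algebra (𝓞 k) R]
    (G : R[X]) (N : R) (m : ℕ) (v : HeightOneSpectrum (𝓞 k)) : ℝ :=
  ((Nat.card (𝓞 k ⧸ v.asIdeal) : ℝ) ^ m)⁻¹ *
    ∑ᶠ φ : {φ : R →+* 𝓞 k ⧸ v.asIdeal //
      φ.comp (algebraMap (𝓞 k) R) = Ideal.Quotient.mk v.asIdeal ∧ φ N ≠ 0},
        traceOne (𝓞 k ⧸ v.asIdeal) (G.map φ.1)

/-- `Σ_T(b) = ∑_{v ∉ S, q_v ≤ T} b(v) log q_v`. -/
noncomputable def sumUpTo {k : Type} [Field k] [NumberField k] (S : Finset (HeightOneSpectrum (𝓞 k)))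
    (b : HeightOneSpectrum (𝓞 k) → ℝ) (T : ℝ) : ℝ :=
  ∑ᶠ v ∈ {v : HeightOneSpectrum (𝓞 k) | v ∉ S ∧ (Ideal.absNorm v.asIdeal : ℝ) ≤ T},
    b v * Real.log (Ideal.absNorm v.asIdeal : ℝ)

/-- **The Tauberian generalized Nagao conjecture for all the hyperelliptic curves
`Y² = a(X) w² + b(X) w + c(X)` over `M(w)`, for an arbitrary finitely generated field `M` of
characteristic zero and for every model.** -/
theorem result {k : Type} [Field k] [NumberField k] {M : Type} [Field M] [CharZero M] [Algebra k M]
    (hM : ∃ S : Finset M, Subfield.closure (S : Set M) = ⊤) {d : ℕ} (hd : Algebra.trdeg ℚ M = d)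
    {K : Type} [Field K] [CharZero K] [Algebra M K] {w : K} (hw : Transcendental M w)
    (hK : IntermediateField.adjoin M {w} = ⊤)
    {g : ℕ} {a b c : M[X]} (hc : c.Monic) (hcd : c.natDegree = 2 * g + 1)
    (ha : a.natDegree < 2 * g + 1) (hb : b.natDegree < 2 * g + 1) (hΔ : b ^ 2 - 4 * a * c ≠ 0)
    (hs : (curve a b c w).Separable) :
    Algebra.trdeg ℚ K = (d + 1 : ℕ) ∧
    (curve a b c w).Monic ∧ (curve a b c w).natDegree = 2 * g + 1 ∧
    -- the algebraic side: the rank of `J(K)`
    Finite {δ : M[X] // δ.Monic ∧ Irreducible δ ∧ IsSplit a b c δ} ∧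
    (a ≠ 0 ∧ IsSquare a → 1 ≤ sigma a b c) ∧
    ClassGroupHasRank (curve a b c w) (rho a b c) ∧
    -- the analytic side: the limit of the averages of the `𝔄_v`, for every model
    ∀ (R : Type) [CommRing R] [IsDomain R] [Algebra.FiniteType ℤ R] [Algebra R K]
      [IsFractionRing R K] [Algebra (𝓞 k) R],
      (∀ z : 𝓞 k, algebraMap R K (algebraMap (𝓞 k) R z) = algebraMap M K (algebraMap k M z)) →
      ∀ G : R[X], G.Monic → G.map (algebraMap R K) = curve a b c w →
        ∀ N : R, N ≠ 0 → ∀ S : Finset (HeightOneSpectrum (𝓞 k)),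
          Tendsto (fun T : ℝ => sumUpTo S (fun v => average G N (d + 1) v) T / T) atTop
            (𝓝 (-(rho a b c : ℝ))) := by
  classical
  have hF : curve a b c w = Pool.Agent.R410.CB.fq a b c w := by
    rw [Pool.Agent.R410.CB.fq_eq]
    rfl
  have hodd : Odd c.natDegree := by rw [hcd]; exact ⟨g, rfl⟩
  have hac : a.natDegree < c.natDegree := by rw [hcd]; exact ha
  have hbc : b.natDegree < c.natDegree := by rw [hcd]; exact hb
  have hSp : ∀ δ : M[X], IsSplit a b c δ ↔ ∃ r s : M[X], Pool.Agent.R410.CB.Spl a b c δ r s := by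
    intro δ
    constructor
    · rintro ⟨r, s, h1, h2, h3, h4⟩
      exact ⟨r, s, h1, h2, h3, h4⟩
    · rintro ⟨r, s, h⟩
      exact ⟨r, s, h.ha, h.hb, h.hc, h.ne⟩
  let e : {δ : M[X] // δ.Monic ∧ Irreducible δ ∧ IsSplit a b c δ} ≃ Pool.Agent.R410.NG.SplT a b c :=
    Equiv.subtypeEquivRight fun δ => by rw [hSp δ]
  have hσ : sigma a b c = Nat.card (Pool.Agent.R410.NG.SplT a b c) := Nat.card_congr e
  have hfin : Finite (Pool.Agent.R410.NG.SplT a b c) :=
    Pool.Agent.R410.NG.finite_spl two_ne_zero hΔ
  have hsq : Squarefree (Pool.Agent.R410.CB.fq a b c w) := by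
    rw [← hF]
    exact hs.squarefree
  obtain ⟨h1, h2⟩ := Pool.Agent.R410.NG.rank_cb' hw hK hodd hac hbc hsq hΔ
  have hnd : (curve a b c w).natDegree = 2 * g + 1 := by
    rw [hF, Pool.Agent.R410.CB.deg_fq hac hbc, hcd]
  have hdc : (c.map (algebraMap M K)).natDegree = 2 * g + 1 := by
    rw [natDegree_map, hcd]
  have hmon : (curve a b c w).Monic := by
    rw [Monic, leadingCoeff, hnd]
    unfold curve
    rw [coeff_add, coeff_add, coeff_C_mul, coeff_C_mul, coeff_map, coeff_map, coeff_map,
      coeff_eq_zero_of_natDegree_lt ha, coeff_eq_zero_of_natDegree_lt hb, ← hcd]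
    have : c.coeff c.natDegree = 1 := hc
    rw [this, map_one, map_zero, mul_zero, mul_zero, add_zero, add_zero]
  have hρ : (rho a b c : ℝ) = (((Nat.card (Pool.Agent.R410.NG.SplT a b c) : ℤ) -
      if a ≠ 0 ∧ IsSquare a then 1 else 0 : ℤ) : ℝ) := by
    unfold rho
    rw [hσ]
    by_cases h : a ≠ 0 ∧ IsSquare a
    · rw [if_pos h, if_pos h, Nat.cast_sub (h2 h)]
      push_cast
      rfl
    · rw [if_neg h, if_neg h, Nat.sub_zero]
      push_cast
      ring
  refine ⟨Pool.Agent.R410.NG.trdeg_line hd hw hK, hmon, hnd, Finite.of_equiv _ e.symm, ?_, ?_, ?_⟩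
  · rw [hσ]
    exact h2
  · unfold ClassGroupHasRank rho
    rw [hσ, hF]
    exact h1
  · intro R _ _ _ _ _ _ hk G hG hGK N hN S
    have hgd : G.natDegree = c.natDegree := by
      have h5 : (G.map (algebraMap R K)).natDegree = G.natDegree := hG.natDegree_map _
      rw [← h5, hGK, hnd, hcd]
    have h6 := Pool.Agent.R410.NG.natural_cb (k := k) hM hd hw hK hodd hΔ R hk (fun _ => G)
      ⟨hG, hgd⟩ (by rw [← hF]; exact hGK) hN S
    have h7 : (fun v : HeightOneSpectrum (𝓞 k) => Pool.Agent.R410.NG.avg
        Pool.Agent.R410.NG.wtc (fun _ => G) N (d + 1) v) = fun v => -average G N (d + 1) v := by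
      funext v
      unfold Pool.Agent.R410.NG.avg Pool.Agent.R410.NG.sR average
      rw [← mul_neg, ← finsum_neg_distrib]
      rfl
    rw [h7, ← hρ] at h6
    have h8 := (Pool.Agent.R410.NG.sumT_lim h6).neg
    refine h8.congr fun T => ?_
    rw [Pool.Agent.R410.NG.sumT_neg, neg_div, neg_neg]
    rfl

end Pool.Agent.Results.MP_1a0ddd_nt.ConicBundleCurves
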