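import Pool.Agent.R461.BC.Main

/-!
# The Tauberian generalized Nagao conjecture for the base changes of any fibration to products

`K` is the number field `k` of the question, `f : 𝒳 → 𝒴` any fibration over `K` (`Fibration K`), `B` the
Chow trace of its generic fibre, given as a projective variety, and `z_v = -𝔄*_v` the values of the
question (`nagaoValue f B g`); the question is whether `average R z T = T⁻¹ ∑ z_v log q_v` tends to
`ρ(f) = rank (P_X(k(𝒴)) / τB(k))`.

For a smooth projective variety `Y` over `K`, given by an open part (`Base K`), `pull f Y` is the base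
change of `f` to `𝒴 × Y`.  It has the same Chow trace `B`, and `ρ(pull f Y)` is the sum of `ρ(f)` and of
the rank of the group of the homomorphisms over `K` from the Albanese variety of `Y` to `B`.

`(Y_b)` is a family of such varieties, finite or infinite, such that the averages of
`a_v(Y_b) a_v(Y_b') / q_v` tend to `0` for `b ≠ b'` and to `e_b > 0` for `b = b'` (`IsFamily`); this is known
for all elliptic curves over `ℚ` up to isogeny, with `e_b = 1`.  If `H¹(B)` contains exactly `n_b` copies
of `H¹(Y_b)`, the increase `ρ(pull f Y_b) - ρ(f)` is `n_b e_b` for these curves, by the theorem of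
Faltings.
The definitions are in `Pool.Agent.R461.BC.Defs` and `Pool.Agent.W353.FB.Defs`.
-/

set_option autoImplicit false

namespace Pool.Agent.Results.MP_1a0ddd_nt.ProductBaseChanges

open NumberField IsDedekindDomain Filter Topology
open Pool.Agent.W353.FB (Fibration nagaoValue ValueAt IsSystem average)
open Pool.Agent.R461.BC

/-- **Nagao averages of base changes.**  Let `f` be any fibration over `K`, `B` its Chow trace and `z` the
bounded values `-𝔄*` of `f` at the primes outside the finite set `R`.

I. Let `(Y_b)` be a family as above, `n_b` numbers, almost all zero, and `r` the dimension of the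
complement in `H¹(B)` of the sum of `n_b` copies of the `H¹(Y_b)`.  Let
`x_b(T) = average(pull f Y_b, T) - average(f, T) - n_b e_b`.
1. For every finite set `S` of indices and `η > 0`, for all large `T`, `∑_{b ∈ S} x_b(T)² / e_b ≤ r² + η`.
2. For `δ > 0` at most `r² / δ²` indices `b` satisfy `|x_b(T)| ≥ δ √e_b` for all large `T`.
3. If the family is countable, every sequence `T_j → ∞` has a subsequence along which all `x_b(T)`
converge, to limits `y_b` with `∑_b y_b² / e_b ≤ r²`.
4. If `r = 0`, then `x_b(T)` tends to `0` for all `b`: if `average(f, T)` tends to `ρ(f)`, then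
`average(pull f Y_b, T)` tends to `ρ(f) + n_b e_b`.

II. If the Chow trace is zero, that is the traces on `H¹(B)` are zero, then for every `Y` the difference
of the averages for `pull f Y` and for `f` tends to `0`: the conjecture for `f` and the conjecture for
`pull f Y`, where the rank is the same, are equivalent. -/
theorem result (K : Type) [Field K] [NumberField K] (f : Fibration K) (k g : ℕ) (hg : 1 ≤ g)
    (B : Set (MvPolynomial (Fin k) (𝓞 K))) (R : Finset (HeightOneSpectrum (𝓞 K)))
    (z : HeightOneSpectrum (𝓞 K) → ℝ) (hz : IsSystem (nagaoValue f B g) R z) :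
    (∀ (β : Type) (Y : β → Base K) (e : β → ℝ), IsFamily Y e → ∀ (n : β →₀ ℕ) (r : ℕ),
      Complement B g Y n r → ∀ (R' : β → Finset (HeightOneSpectrum (𝓞 K)))
      (z' : β → HeightOneSpectrum (𝓞 K) → ℝ),
      (∀ b, IsSystem (nagaoValue (pull f (Y b)) B g) (R' b) (z' b)) →
      (∀ (S : Finset β) (η : ℝ), 0 < η → ∀ᶠ T : ℕ in atTop,
        ∑ b ∈ S, (average (R' b) (z' b) T - average R z T - n b * e b) ^ 2 / e b ≤
          (r : ℝ) ^ 2 + η) ∧
      (∀ δ : ℝ, 0 < δ →
        {b : β | ∀ᶠ T : ℕ in atTop,
          δ * √(e b) ≤ |average (R' b) (z' b) T - average R z T - n b * e b|}.Finite ∧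
        ({b : β | ∀ᶠ T : ℕ in atTop,
          δ * √(e b) ≤ |average (R' b) (z' b) T - average R z T - n b * e b|}.ncard : ℝ) ≤
            (r : ℝ) ^ 2 / δ ^ 2) ∧
      (Countable β → ∀ T : ℕ → ℕ, Tendsto T atTop atTop → ∃ φ : ℕ → ℕ, StrictMono φ ∧
        ∃ y : β → ℝ, (∀ b, Tendsto (fun j => average (R' b) (z' b) (T (φ j)) -
          average R z (T (φ j)) - n b * e b) atTop (𝓝 (y b))) ∧
          Summable (fun b => y b ^ 2 / e b) ∧ ∑' b, y b ^ 2 / e b ≤ (r : ℝ) ^ 2) ∧
      (r = 0 → ∀ b, Tendsto (fun T => average (R' b) (z' b) T - average R z T - n b * e b) atTop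
        (𝓝 0))) ∧
    ((∀ᶠ v in cofinite, ValueAt (traceValue B g) (F := K) v 0) →
      ∀ (Y : Base K) (R' : Finset (HeightOneSpectrum (𝓞 K))) (z' : HeightOneSpectrum (𝓞 K) → ℝ),
        IsSystem (nagaoValue (pull f Y) B g) R' z' →
        Tendsto (fun T => average R' z' T - average R z T) atTop (𝓝 0)) := by
  classical
  refine ⟨fun β Y e hY n r hB R' z' hz' => ?_, fun h0 Y R' z' hz' => ?_⟩
  · have h1 := fun (S : Finset β) (η : ℝ) (hη : 0 < η) => main hg hY hB hz hz' S hη
    obtain ⟨h2, h3, h4⟩ := conseq (fun b => (hY.1 b).1)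
      (x := fun b T => average (R' b) (z' b) T - average R z T - n b * e b) (r := (r : ℝ)) h1
    exact ⟨h1, h2, h3, fun hr => h4 (by rw [hr, Nat.cast_zero])⟩
  · have hB : Complement B g (fun b : Empty => b.elim) 0 0 := h0.mono fun v hv => by
      refine ⟨0, fun j => j.elim0, hv, fun j => j.elim0, ?_⟩
      simp
    exact trace_zero hg hB hz Y hz'

end Pool.Agent.Results.MP_1a0ddd_nt.ProductBaseChanges
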