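import Pool.Agent.R385.TL.Laws

/-!
# The Tauberian Nagao conjecture for fibrations and the frequency of large values

`f : 𝒳 → 𝒴` is a fibration over a number field `K`, `B` the projective variety over `K` of the
`K(𝒴)/K`-trace, `F` a number field containing `K`, `R` a finite set of primes of `F`, and
`b v = -𝔄*_v = a_v(B) - 𝔄_v` for the primes `v` of `F` outside `R`; these numbers are bounded, by the
theorem of Deligne (`IsSystem`).  Let `|b v| ≤ β` and `U(t) = ∑ (β + b_v) cos(t log q_v) / q_v`.

`RareF κ U`: for some `c > 0` and all large `V`, the set where `U ≥ V` has, in every interval of length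
at least `T₀(V)`, a proportion at most `exp(-exp(c exp(V / κ)))`.  `FreqF κ U`: the proportion is at
least this, for some `c > 0`.  `TailExponent κ U`: `RareF κ' U` for all `κ' > κ`, and `FreqF κ' U` for all
`κ' < κ`.
-/

set_option autoImplicit false

namespace Pool.Agent.Results.MP_1a0ddd_nt.TailExponents

open NumberField IsDedekindDomain Filter Topology
open Pool.Agent.W353.FB (Fibration IsSystem nagaoValue average)
open Pool.Agent.R385.FG (cosSeries)
open Pool.Agent.R385.TL

/-- The statements for a bound `β` of the numbers `|b v|`: the laws of `TailLaws`; and if the averages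
`T⁻¹ ∑_{q_v ≤ T} b_v log q_v` have a limit, then it is the number `r` such that `β + r` is the tail
exponent. -/
def Statement {F : Type} [Field F] [NumberField F] (R : Finset (HeightOneSpectrum (𝓞 F)))
    (b : HeightOneSpectrum (𝓞 F) → ℝ) (β : ℝ) : Prop :=
  TailLaws R b β ∧
  Decides β (cosSeries R fun v => β + b v) (fun r => Tendsto (average R b) atTop (𝓝 r))

theorem result (K : Type) [Field K] [NumberField K] (f : Fibration K) (n g : ℕ)
    (B : Set (MvPolynomial (Fin n) (𝓞 K)))
    (F : Type) [Field F] [NumberField F] [Algebra K F] (R : Finset (HeightOneSpectrum (𝓞 F)))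
    (b : HeightOneSpectrum (𝓞 F) → ℝ) (hb : IsSystem (nagaoValue f B g) R b) :
    (∃ β : ℝ, 0 ≤ β ∧ ∀ v, v ∉ R → |b v| ≤ β) ∧
    ∀ β : ℝ, 0 ≤ β → (∀ v, v ∉ R → |b v| ≤ β) → Statement R b β := by
  refine ⟨?_, fun β hβ hb => ⟨tailLaws hb hβ, decides_average hb hβ⟩⟩
  obtain ⟨C, hC⟩ := hb.2
  exact ⟨|C|, abs_nonneg C, fun v hv => (hC v hv).trans (le_abs_self C)⟩

end Pool.Agent.Results.MP_1a0ddd_nt.TailExponents
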